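import Pool.Agent.X282.WV.F

/-!
# A wavelet set in `ℝ` that tiles multiplicatively by no set of automorphisms

`G = ℝ`, dilations `2^n`, translations `ℤ + 1/2` (so `0 ∉ Λ`), and
`Ω = ±([1/7,1/5] ∪ [3/7,8/7] ∪ [16/5,24/7])`.

* The system `2^{n/2} ψ(2^n x - k - 1/2)`, `\hat ψ = 1_Ω`, is an orthogonal basis of `L²(ℝ)`
  (so `Ω` is a wavelet set).  Reason: put `P₁ = [3/7,4/7)`, `P₂ = [1/7,1/5) ∪ [4/5,6/7)`,
  `S = P ∪ (P - 1)`, which is a fundamental domain for the dilations `2^n`; then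
  `Ω = S ∪ 2 S₁ ∪ 4 S₂`, and modulo one `Ω` covers every point twice: the pair `{y, y - 1}`,
  `y ∈ P`, occurs with the sign `-1` at its own scale, and with the sign `+1` one (`P₁`) or two
  (`P₂`) scales later, so that the cross terms cancel in the sum over all scales.
* No set `A'` of automorphisms of `ℝ` tiles `ℝ` by `Ω` with multiplicity one: the gap
  `(1/5, 3/7)` of one copy can only meet the outer piece `[16/5, 24/7]` of another copy, and of
  only one, which is too short.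
-/

namespace Pool.Agent.Results.MP_b00f94_an.NonTilingWaveletSet

open MeasureTheory Set FourierTransform Pool.Agent.X282.WV

noncomputable section

/-- The automorphism `x ↦ 2 x`. -/
def two : ℝˣ := Units.mk0 (2 : ℝ) two_ne_zero

/-- The dilations `x ↦ 2^n x`. -/
def Dil : Set ℝˣ := Set.range fun n : ℤ => two ^ n

/-- The translations `k + 1/2`. -/
def Half : Set ℝ := Set.range fun k : ℤ => (k : ℝ) + 1/2

theorem two_zpow (n : ℤ) : ((two ^ n : ℝˣ) : ℝ) = (2:ℝ) ^ n := by
  simp [two, Units.val_zpow_eq_zpow_val]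

theorem inj_dil : Function.Injective fun n : ℤ => two ^ n := by
  intro n m h
  have h2 : ((two ^ n : ℝˣ) : ℝ) = ((two ^ m : ℝˣ) : ℝ) := congrArg _ h
  rw [two_zpow, two_zpow] at h2
  exact (zpow_right_injective₀ (by norm_num) (by norm_num)) h2

theorem inj_half : Function.Injective fun k : ℤ => (k : ℝ) + 1/2 := by
  intro n m h
  simpa using h

/-- indexing -/
def idx : ℤ × ℤ ≃ Half × Dil :=
  (Equiv.ofInjective _ inj_half).prodCongr (Equiv.ofInjective _ inj_dil)

/-- the family -/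
def w (p : Half × Dil) : Lp ℂ 2 (volume : Measure ℝ) := wv (idx.symm p).2 (idx.symm p).1

theorem w_idx (k n : ℤ) : w (idx (k, n)) = wv n k := by simp [w]

theorem quasi (n : ℤ) (l : ℝ) : Measure.QuasiMeasurePreserving
    (fun x : ℝ => (2:ℝ) ^ n * x - l) volume volume := by
  have hne : ((2:ℝ) ^ n) ≠ 0 := by positivity
  have h1 : Measure.QuasiMeasurePreserving (fun x : ℝ => (2:ℝ) ^ n * x) volume volume := by
    refine ⟨by fun_prop, ?_⟩
    rw [Real.map_volume_mul_left hne]
    exact Measure.smul_absolutelyContinuous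
  exact (measurePreserving_sub_right volume l).quasiMeasurePreserving.comp h1

theorem isWaveletSet_Om : IsWaveletSet Om Dil Half := by
  have hn : ∀ p, ‖w p‖ ^ 2 = 2 := fun p => norm_wv _ _
  have hp : ∀ h : Lp ℂ 2 (volume : Measure ℝ),
      ∑' p, ‖inner ℂ (w p) h‖ₑ ^ 2 = ENNReal.ofReal (2 * ‖h‖ ^ 2) := by
    intro h
    rw [← idx.tsum_eq, ENNReal.tsum_prod', ENNReal.tsum_comm, ← parseval_wv h]
    simp only [w_idx]
  obtain ⟨h1, h2, h3⟩ := basis_of_parseval w 2 (by norm_num) hn hp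
  refine ⟨measurableSet_Om, volume_Om_ne, by rw [volume_Om]; norm_num,
    𝓕⁻ (indicatorConstLp 2 measurableSet_Om volume_Om_ne (1 : ℂ)), ?_, w, ?_, h1, h2, h3⟩
  · rw [fourier_fourierInv_eq]
  · intro p
    obtain ⟨⟨k, n⟩, rfl⟩ := idx.surjective p
    rw [w_idx]
    have e1 : ((wv n k : Lp ℂ 2 (volume : Measure ℝ)) : ℝ → ℂ) =ᵐ[volume] 𝓕⁻ (Hf n k) :=
      fourierInv_ae (Hf n k) (memLp_one_iff_integrable.1 (memLp_Hf 1 n k)) (memLp_Hf 2 n k)
    have e2 : ((𝓕⁻ (indicatorConstLp 2 measurableSet_Om volume_Om_ne (1 : ℂ)) :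
        Lp ℂ 2 (volume : Measure ℝ)) : ℝ → ℂ) =ᵐ[volume] 𝓕⁻ ind :=
      fourierInv_ae ind (memLp_one_iff_integrable.1 (memLp_ind 1)) (memLp_ind 2)
    have e3 := (quasi n ((k : ℝ) + 1/2)).ae_eq_comp e2
    refine e1.trans ?_
    filter_upwards [e3] with x hx
    rw [fourierInv_Hf]
    have hk : (((idx (k, n)).1 : ℝ)) = (k : ℝ) + 1/2 := rfl
    have hn : (((idx (k, n)).2 : ℝˣ) : ℝ) = (2:ℝ) ^ n := two_zpow n
    simp only [Function.comp] at hx
    unfold member
    rw [hk, hn, hx, abs_of_pos (by positivity : (0:ℝ) < (2:ℝ) ^ n)]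

theorem aut_eq (α : ℝ ≃ₜ+ ℝ) : ∃ u : ℝˣ, ∀ x, α x = u * x := by
  have h1 : α 1 ≠ 0 := by
    intro h
    have : (1:ℝ) = 0 := α.injective (by rw [h, map_zero])
    exact one_ne_zero this
  refine ⟨Units.mk0 (α 1) h1, fun x => ?_⟩
  have := map_real_smul α α.continuous x 1
  simp only [smul_eq_mul, mul_one] at this
  rw [this]
  simp [mul_comm]

/-- **Negative answer to Q1 of MP_b00f94_an.** Every topological automorphism of `ℝ` is
multiplication by a unit; the set `Om` is a wavelet set in `ℝ` for the countable dilation set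
`{2^n}` and the countable translation set `ℤ + 1/2`, which does not contain `0`; and no set `A'` of
automorphisms tiles `ℝ` multiplicatively by `Om` (with multiplicity one). -/
theorem result :
    (∀ α : ℝ ≃ₜ+ ℝ, ∃ u : ℝˣ, ∀ x, α x = u * x) ∧
    Dil.Countable ∧ Half.Countable ∧ (0 : ℝ) ∉ Half ∧
    IsWaveletSet Om Dil Half ∧
    ∀ A' : Set ℝˣ, ¬ Tiles Om A' := by
  refine ⟨aut_eq, Set.countable_range _, Set.countable_range _, ?_, isWaveletSet_Om,
    fun A' hA' => not_tiles hA'⟩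
  rintro ⟨k, hk⟩
  have h : ((2 * k + 1 : ℤ) : ℝ) = 0 := by
    push_cast
    simp only at hk
    linarith
  have h2 : (2 * k + 1 : ℤ) = 0 := by exact_mod_cast h
  omega

end

end Pool.Agent.Results.MP_b00f94_an.NonTilingWaveletSet
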